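import Pool.Agent.Helper3.SP.Defs2

/-!
# Block W: the extension is not weakly compact
-/

namespace Pool.Agent.Helper3.SP

open Cardinal Set

variable {A L : Type} [LinearOrder A] [LinearOrder L]

namespace NW

theorem eqf_refl (m : A) (x : Set A) : Eqf m x x := by
  unfold Eqf
  convert Set.finite_empty (α := A)
  ext a
  simp

theorem eqf_symm {m : A} {x y : Set A} (h : Eqf m x y) : Eqf m y x :=
  Set.Finite.subset h fun _ ha => ⟨ha.1, fun h2 => ha.2 h2.symm⟩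

theorem eqf_trans {m : A} {x y z : Set A} (h : Eqf m x y) (h' : Eqf m y z) : Eqf m x z := by
  refine (Set.Finite.union h h').subset ?_
  rintro a ⟨ha1, ha2⟩
  by_cases h3 : a ∈ x ↔ a ∈ y
  · exact Or.inr ⟨ha1, fun h4 => ha2 (h3.trans h4)⟩
  · exact Or.inl ⟨ha1, h3⟩

end NW

open NW

theorem rep_eqf (m : A) (x : Set A) : Eqf m x (rep m x) :=
  Classical.epsilon_spec (p := fun y => Eqf m x y) ⟨x, eqf_refl m x⟩

theorem rep_congr {m : A} {x y : Set A} (h : Eqf m x y) : rep m x = rep m y := by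
  unfold rep
  congr 1
  funext z
  exact propext ⟨fun h1 => eqf_trans (eqf_symm h) h1, fun h1 => eqf_trans h h1⟩

namespace NW

/-- a condition of the fine poset as a condition of the coarse one -/
def toC (v : PF A L) : PC A L := ⟨v.1, v.2⟩

theorem toC_le {v w : PF A L} (h : v ≤ w) : toC v ≤ toC w := LeF.leC h

theorem exists_gt (h : Hyp A L) (a : A) : ∃ m, a < m := by
  obtain ⟨m, hm⟩ := h.bddA {a} (by rw [mk_singleton]; exact one_lt_aleph0.trans h.unc)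
  exact ⟨m, hm a rfl⟩

/-- extension of the length -/
def ext (r : RC A L) (b : A) : RC A L := ⟨max r.len b, r.x, r.S, r.K⟩

theorem ext_leC (r : RC A L) (b : A) : LeC (ext r b) r :=
  LeD.of_agree (le_max_left _ _) (fin_diff_refl r) (fun _ _ _ => Iff.rfl) (fun _ _ _ h => h)

/-- change of a bit -/
def bit (s : Prop) (r : RC A L) (a : A) : RC A L :=
  ⟨r.len, {y | (y ≠ a ∧ y ∈ r.x) ∨ (y = a ∧ s)}, r.S, r.K⟩

theorem bit_diff (s : Prop) (r : RC A L) (a : A) :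
    {y | ¬ (y ∈ (bit s r a).x ↔ y ∈ r.x)}.Finite := by
  refine (Set.finite_singleton a).subset ?_
  intro y hy
  by_contra hne
  have hne' : y ≠ a := hne
  exact hy (by simp [bit, hne'])

theorem bit_leC (s : Prop) (r : RC A L) (a : A) : LeC (bit s r a) r :=
  LeD.of_agree le_rfl ((bit_diff s r a).subset fun _ ha => ha.2) (fun _ _ _ => Iff.rfl)
    (fun _ _ _ h => h)

theorem bit_leF {s : Prop} {r p : RC A L} {a : A} (h : LeF r p) (ha : p.len ≤ a) :
    LeF (bit s r a) p := by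
  have hx : ∀ y < p.len, (y ∈ (bit s r a).x ↔ y ∈ p.x) := by
    intro y hy
    have hne : y ≠ a := (hy.trans_le ha).ne
    have h1 : y ∈ (bit s r a).x ↔ y ∈ r.x := by simp [bit, hne]
    exact h1.trans (h.1 y hy)
  exact ⟨hx, (bit_leC s r a).trans h.2⟩

theorem notWC_aux (h : Hyp A L) (hdir : DirClosed #A (PF A L)) (H : A → Set (PC A L))
    (hH : ∀ b s t, t ≤ s → s ∈ H b → t ∈ H b)
    (q : PC A L) (hq : ∀ t ≤ q, ∀ c, ∃ s ≤ t, ∃ b, c < b ∧ s ∈ H b) (s : Prop) :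
    ∃ r ≤ q, ∃ a b, a < b ∧ b ≤ r.1.len ∧ r ∈ H a ∧ r ∈ H b ∧ (a ∈ rep b r.1.x ↔ s) := by
  classical
  by_contra hcon
  have hstar : ∀ r ≤ q, ∀ a b, a < b → b ≤ r.1.len → r ∈ H a → r ∈ H b →
      ¬ (a ∈ rep b r.1.x ↔ s) := by
    intro r hr a b h1 h2 h3 h4 h5
    exact hcon ⟨r, hr, a, b, h1, h2, h3, h4, h5⟩
  -- Claim A
  have claimA : ∃ v : PF A L, toC v ≤ q ∧ ∃ c, ∀ v' ≤ v, ∀ a, c ≤ a → toC v' ∈ H a →
      a < v'.1.len → ¬ (a ∈ v'.1.x ↔ s) := by
    by_contra hA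
    have step : ∀ z : {z : PF A L × A // toC z.1 ≤ q}, ∃ w : {z : PF A L × A // toC z.1 ≤ q},
        w.1.1 ≤ z.1.1 ∧ z.1.2 < w.1.2 ∧ toC w.1.1 ∈ H w.1.2 ∧ w.1.2 < w.1.1.1.len ∧
          (w.1.2 ∈ w.1.1.1.x ↔ s) := by
      rintro ⟨⟨v, a0⟩, hv⟩
      obtain ⟨c, hc⟩ := exists_gt h a0
      by_contra hno
      refine hA ⟨v, hv, c, ?_⟩
      intro v' hv' a h1 h2 h3 h4
      exact hno ⟨⟨(v', a), le_trans (toC_le hv') hv⟩, hv', hc.trans_le h1, h2, h3, h4⟩
    choose g hg1 hg2 hg3 hg4 hg5 using step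
    let z0 : {z : PF A L × A // toC z.1 ≤ q} := ⟨(⟨q.1, q.2⟩, q.1.len), le_refl q⟩
    let f : ℕ → {z : PF A L × A // toC z.1 ≤ q} := fun n => g^[n] z0
    have hf : ∀ n, f (n + 1) = g (f n) := fun n => Function.iterate_succ_apply' g n z0
    have hanti : ∀ m n, m ≤ n → (f n).1.1 ≤ (f m).1.1 := by
      intro m n hmn
      induction n, hmn using Nat.le_induction with
      | base => exact le_refl _
      | succ n _ ih => rw [hf]; exact le_trans (hg1 _) ih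
    have hmono : StrictMono fun n => (f n).1.2 := by
      apply strictMono_nat_of_lt_succ
      intro n
      change (f n).1.2 < (f (n + 1)).1.2
      rw [hf]
      exact hg2 _
    obtain ⟨vo, hvo⟩ := hdir (Set.range fun n => (f n).1.1)
      (lt_of_le_of_lt (Cardinal.le_aleph0_iff_set_countable.2 (Set.countable_range _)) h.unc) (by
        rintro _ ⟨i, rfl⟩ _ ⟨j, rfl⟩
        exact ⟨_, ⟨max i j, rfl⟩, hanti _ _ (le_max_left _ _), hanti _ _ (le_max_right _ _)⟩)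
    have hvo' : ∀ n, vo ≤ (f n).1.1 := fun n => hvo _ ⟨n, rfl⟩
    obtain ⟨cs, hcs⟩ := h.bddA (Set.range fun n => (f n).1.2)
      (lt_of_le_of_lt (Cardinal.le_aleph0_iff_set_countable.2 (Set.countable_range _)) h.unc)
    have hvoq : toC vo ≤ q := le_trans (toC_le (hvo' 0)) (f 0).2
    obtain ⟨w0, hw0, b, hb, hwb⟩ := hq (toC vo) hvoq cs
    -- extend the length and lift
    let w : RC A L := ext w0.1 b
    have hwS : Sm w := w0.2
    have hwle : LeC w vo.1 := (ext_leC w0.1 b).trans hw0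
    let w' : RC A L := lift w vo.1
    have hw'F : LeF w' vo.1 := lift_leF hwle
    have hw'C : LeC w' w := lift_leC hwle
    let W : PC A L := ⟨w', hwS⟩
    have hWw0 : W ≤ w0 := hw'C.trans (ext_leC w0.1 b)
    have hWq : W ≤ q := le_trans (hWw0.trans hw0) hvoq
    have hWb : W ∈ H b := hH b w0 W hWw0 hwb
    have hlen : b ≤ W.1.len := le_max_right _ _
    have key : ∀ n : ℕ, (f (n + 1)).1.2 ∈ {a | a < b ∧ ¬ (a ∈ w'.x ↔ a ∈ rep b w'.x)} := by
      intro n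
      have e := hf n
      have h1 : (f (n + 1)).1.2 < b := (hcs _ ⟨n + 1, rfl⟩).trans hb
      have h2 : LeF w' (f (n + 1)).1.1.1 := hw'F.trans (hvo' (n + 1))
      have h3 : toC (f (n + 1)).1.1 ∈ H (f (n + 1)).1.2 := by rw [e]; exact hg3 _
      have h4 : (f (n + 1)).1.2 < (f (n + 1)).1.1.1.len := by rw [e]; exact hg4 _
      have h5 : (f (n + 1)).1.2 ∈ (f (n + 1)).1.1.1.x ↔ s := by rw [e]; exact hg5 _
      have h6 : W ∈ H (f (n + 1)).1.2 := hH _ _ W (LeF.leC h2) h3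
      have h7 := hstar W hWq _ b h1 hlen h6 hWb
      have h8 : (f (n + 1)).1.2 ∈ w'.x ↔ s := (h2.1 _ h4).trans h5
      refine ⟨h1, fun h9 => h7 ?_⟩
      exact h9.symm.trans h8
    have hinf : (Set.range fun n : ℕ => (f (n + 1)).1.2).Infinite := by
      apply Set.infinite_range_of_injective
      intro m n hmn
      have := hmono.injective hmn
      omega
    refine hinf (Set.Finite.subset (rep_eqf b w'.x) ?_)
    rintro _ ⟨n, rfl⟩
    exact key n
  obtain ⟨v, hv, c, hc⟩ := claimA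
  -- Claim B
  obtain ⟨w0, hw0, a, ha, hwa⟩ := hq (toC v) hv (max c v.1.len)
  obtain ⟨m, hm⟩ := exists_gt h a
  let w : RC A L := ext w0.1 m
  have hwS : Sm w := w0.2
  have hwle : LeC w v.1 := (ext_leC w0.1 m).trans hw0
  have hw'F : LeF (lift w v.1) v.1 := lift_leF hwle
  have hva : v.1.len ≤ a := (le_max_right _ _).trans ha.le
  have h1 : LeF (bit s (lift w v.1) a) v.1 := bit_leF hw'F hva
  have h2 : LeC (bit s (lift w v.1) a) w0.1 :=
    ((bit_leC s _ a).trans (lift_leC hwle)).trans (ext_leC w0.1 m)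
  let u : PF A L := ⟨bit s (lift w v.1) a, hwS⟩
  have hu : u ≤ v := h1
  have h3 : toC u ∈ H a := hH a w0 (toC u) h2 hwa
  refine hc u hu a ((le_max_left _ _).trans ha.le) h3 ?_ ?_
  · change a < max w0.1.len m
    exact lt_max_of_lt_right hm
  · change a ∈ (bit s (lift w v.1) a).x ↔ s
    simp [bit]

end NW

open NW

theorem notWC (h : Hyp A L) (hdir : DirClosed #A (PF A L)) (H : A → Set (PC A L))
    (hH : ∀ b s t, t ≤ s → s ∈ H b → t ∈ H b)
    (q : PC A L) (hq : ∀ t ≤ q, ∀ c, ∃ s ≤ t, ∃ b, c < b ∧ s ∈ H b) :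
    (∃ r ≤ q, ∃ a b, a < b ∧ b ≤ r.1.len ∧ r ∈ H a ∧ r ∈ H b ∧ a ∈ rep b r.1.x) ∧
      ∃ r ≤ q, ∃ a b, a < b ∧ b ≤ r.1.len ∧ r ∈ H a ∧ r ∈ H b ∧ a ∉ rep b r.1.x := by
  constructor
  · obtain ⟨r, h1, a, b, h2, h3, h4, h5, h6⟩ := notWC_aux h hdir H hH q hq True
    exact ⟨r, h1, a, b, h2, h3, h4, h5, h6.2 trivial⟩
  · obtain ⟨r, h1, a, b, h2, h3, h4, h5, h6⟩ := notWC_aux h hdir H hH q hq False
    exact ⟨r, h1, a, b, h2, h3, h4, h5, h6.1⟩

end Pool.Agent.Helper3.SP
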